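import Pool.Agent.H624.WS.Stm

/-!
# DENS: densities of the scalar measures of a functional on `L^p(μ, X)`
-/

set_option autoImplicit false

open MeasureTheory Set Filter Topology
open scoped ENNReal

noncomputable section

namespace Pool.Agent.H935.WS

open Pool.Agent.H624.WS

variable {Ω : Type} [MeasurableSpace Ω] {μ : Measure Ω} [IsProbabilityMeasure μ]
  {X : Type} [NormedAddCommGroup X] [NormedSpace ℝ X] {p : ℝ≥0∞} [Fact (1 ≤ p)]

omit [NormedSpace ℝ X] [Fact (1 ≤ p)] in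
/-- the indicator functions of disjoint sets add up -/
theorem sum_ind (x : X) (f : ℕ → Set Ω) (hf : ∀ i, MeasurableSet (f i))
    (hd : Pairwise (Function.onFun Disjoint f)) (S : Finset ℕ) :
    ∑ i ∈ S, indicatorConstLp p (hf i) (measure_ne_top μ (f i)) x =
      indicatorConstLp p (S.measurableSet_biUnion fun i _ => hf i)
        (measure_ne_top μ (⋃ i ∈ S, f i)) x := by
  classical
  induction S using Finset.induction_on with
  | empty =>
    rw [Finset.sum_empty]
    have e : (⋃ i ∈ (∅ : Finset ℕ), f i) = ∅ := by simp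
    symm
    rw [← indicatorConstLp_empty (c := x) (p := p) (μ := μ)]
    congr 1
  | insert a S ha ih =>
    rw [Finset.sum_insert ha, ih]
    have hdis : Disjoint (f a) (⋃ i ∈ S, f i) := by
      rw [Set.disjoint_iUnion₂_right]
      intro i hi
      exact hd (fun h => ha (h ▸ hi))
    rw [← indicatorConstLp_disjoint_union (hf a) (S.measurableSet_biUnion fun i _ => hf i)
      (measure_ne_top μ _) (measure_ne_top μ _) hdis x]
    congr 1
    rw [Finset.set_biUnion_insert]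

omit [IsProbabilityMeasure μ] in
theorem tendsto_symmDiff [IsFiniteMeasure μ] (f : ℕ → Set Ω) (hf : ∀ i, MeasurableSet (f i))
    (hd : Pairwise (Function.onFun Disjoint f)) :
    Tendsto (fun S : Finset ℕ => μ (symmDiff (⋃ i ∈ S, f i) (⋃ i, f i))) atTop (𝓝 0) := by
  have e : ∀ S : Finset ℕ, μ (symmDiff (⋃ i ∈ S, f i) (⋃ i, f i)) =
      μ (⋃ i, f i) - ∑ i ∈ S, μ (f i) := by
    intro S
    have hsub : (⋃ i ∈ S, f i) ⊆ ⋃ i, f i := Set.iUnion₂_subset fun i _ => Set.subset_iUnion f i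
    have e1 : symmDiff (⋃ i ∈ S, f i) (⋃ i, f i) = (⋃ i, f i) \ (⋃ i ∈ S, f i) :=
      symmDiff_of_le hsub
    rw [e1, measure_sdiff hsub (S.measurableSet_biUnion fun i _ => hf i).nullMeasurableSet
      (measure_ne_top μ _), measure_biUnion_finset (fun i _ j _ hij => hd hij) (fun i _ => hf i)]
  have h1 : Tendsto (fun S : Finset ℕ => ∑ i ∈ S, μ (f i)) atTop (𝓝 (μ (⋃ i, f i))) := by
    rw [measure_iUnion hd hf]
    exact ENNReal.summable.hasSum
  have h2 := ENNReal.Tendsto.sub (tendsto_const_nhds (x := μ (⋃ i, f i)) (f := atTop)) h1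
    (Or.inl (measure_ne_top μ _))
  rw [tsub_self] at h2
  exact h2.congr fun S => (e S).symm

open Classical in
/-- the signed measure `s ↦ Λ (1_s x)` -/
def sm (hp : p ≠ ∞) (Λ : Lp X p μ →L[ℝ] ℝ) (x : X) : SignedMeasure Ω where
  measureOf' s :=
    if hs : MeasurableSet s then Λ (indicatorConstLp p hs (measure_ne_top μ s) x) else 0
  empty' := by
    rw [dif_pos MeasurableSet.empty]
    rw [indicatorConstLp_empty, map_zero]
  not_measurable' := by
    intro s hs
    rw [dif_neg hs]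
  m_iUnion' := by
    intro f hf hd
    rw [dif_pos (MeasurableSet.iUnion hf)]
    have e : (fun i => (if hs : MeasurableSet (f i) then
        Λ (indicatorConstLp p hs (measure_ne_top μ (f i)) x) else 0)) =
        fun i => Λ (indicatorConstLp p (hf i) (measure_ne_top μ (f i)) x) := by
      funext i
      rw [dif_pos (hf i)]
    rw [e]
    refine HasSum.mapL Λ ?_
    have h1 := tendsto_symmDiff (μ := μ) f hf hd
    have h2 := tendsto_indicatorConstLp_set (p := p) (hs := MeasurableSet.iUnion hf)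
      (hμs := measure_ne_top μ _) (c := x)
      (ht := fun S : Finset ℕ => S.measurableSet_biUnion fun i _ => hf i)
      (hμt := fun S : Finset ℕ => measure_ne_top μ (⋃ i ∈ S, f i)) hp h1
    have h3 : (fun S : Finset ℕ => ∑ i ∈ S, indicatorConstLp p (hf i) (measure_ne_top μ (f i)) x) =
        fun S : Finset ℕ => indicatorConstLp p (S.measurableSet_biUnion fun i _ => hf i)
          (measure_ne_top μ (⋃ i ∈ S, f i)) x := funext fun S => sum_ind x f hf hd S
    change Tendsto (fun S : Finset ℕ => ∑ i ∈ S, indicatorConstLp p (hf i)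
      (measure_ne_top μ (f i)) x) _ _
    rw [h3, SummationFilter.unconditional_filter]
    exact h2

theorem sm_apply (hp : p ≠ ∞) (Λ : Lp X p μ →L[ℝ] ℝ) (x : X) (s : Set Ω) (hs : MeasurableSet s) :
    sm hp Λ x s = Λ (indicatorConstLp p hs (measure_ne_top μ s) x) := by
  classical
  exact dif_pos hs

theorem sm_ac (hp : p ≠ ∞) (Λ : Lp X p μ →L[ℝ] ℝ) (x : X) :
    sm hp Λ x ≪ᵥ μ.toENNRealVectorMeasure := by
  refine VectorMeasure.AbsolutelyContinuous.mk fun s hs h0 => ?_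
  rw [Measure.toENNRealVectorMeasure_apply_measurable hs] at h0
  rw [sm_apply hp Λ x s hs]
  have h1 : indicatorConstLp p hs (measure_ne_top μ s) x = 0 := by
    rw [← norm_eq_zero, norm_indicatorConstLp (zero_lt_one.trans_le (Fact.out : 1 ≤ p)).ne' hp]
    have h2 : μ.real s = 0 := by rw [Measure.real, h0]; rfl
    have h3 : 0 < p.toReal := ENNReal.toReal_pos (zero_lt_one.trans_le (Fact.out : 1 ≤ p)).ne' hp
    rw [h2, Real.zero_rpow (by positivity), mul_zero]
  rw [h1, map_zero]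

/-- the density -/
def dn (hp : p ≠ ∞) (Λ : Lp X p μ →L[ℝ] ℝ) (x : X) : Ω → ℝ := (sm hp Λ x).rnDeriv μ

theorem dn_spec (hp : p ≠ ∞) (Λ : Lp X p μ →L[ℝ] ℝ) (x : X) (s : Set Ω) (hs : MeasurableSet s) :
    Λ (indicatorConstLp p hs (measure_ne_top μ s) x) = ∫ ω in s, dn hp Λ x ω ∂μ := by
  have h1 := SignedMeasure.withDensityᵥ_rnDeriv_eq (sm hp Λ x) μ (sm_ac hp Λ x)
  have h2 := withDensityᵥ_apply (SignedMeasure.integrable_rnDeriv (sm hp Λ x) μ) hs
  rw [h1, sm_apply hp Λ x s hs] at h2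
  exact h2

/-- the finite maxima -/
theorem ind (Λ : Lp X p μ →L[ℝ] ℝ) (t : X → Ω → ℝ) (htm : ∀ x, Measurable (t x))
    (hti : ∀ x, Integrable (t x) μ)
    (htr : ∀ (x : X) (s : Set Ω) (hs : MeasurableSet s),
        Λ (indicatorConstLp p hs (measure_ne_top μ s) x) = ∫ ω in s, t x ω ∂μ)
    (h : Ω → ℝ) (hm : Measurable h) (hi : Integrable h μ) (F : Finset X) :
    (∀ x ∈ F, ‖x‖ ≤ 1) → ∀ A : Set Ω, MeasurableSet A → (∀ ω ∈ A, ∃ x ∈ F, h ω ≤ |t x ω|) →
    ∃ g : Lp X p μ, (∀ᵐ ω ∂μ, ‖g ω‖ ≤ 1) ∧ (∀ᵐ ω ∂μ, ω ∉ A → g ω = 0) ∧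
      ∫ ω in A, h ω ∂μ ≤ Λ g := by
  classical
  induction F using Finset.induction_on with
  | empty =>
    intro _ A hA hc
    have hA0 : A = ∅ := by
      rw [Set.eq_empty_iff_forall_notMem]
      intro ω hω
      obtain ⟨x, hx, _⟩ := hc ω hω
      simp at hx
    refine ⟨0, ?_, ?_, ?_⟩
    · filter_upwards [Lp.coeFn_zero X p μ] with ω hω
      rw [hω]; simp
    · filter_upwards [Lp.coeFn_zero X p μ] with ω hω _
      rw [hω]; rfl
    · rw [hA0]; simp
  | insert x F hx ih =>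
    intro hF A hA hc
    have hB : MeasurableSet {ω | h ω ≤ |t x ω|} := measurableSet_le hm (htm x).abs
    have hC : MeasurableSet {ω | 0 ≤ t x ω} := measurableSet_le measurable_const (htm x)
    obtain ⟨g', hg1, hg2, hg3⟩ := ih (fun y hy => hF y (Finset.mem_insert_of_mem hy))
      (A \ {ω | h ω ≤ |t x ω|}) (hA.diff hB) (by
        intro ω hω
        obtain ⟨y, hy, hy'⟩ := hc ω hω.1
        rcases Finset.mem_insert.mp hy with rfl | hy
        · exact absurd hy' hω.2
        · exact ⟨y, hy, hy'⟩)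
    have hP : MeasurableSet ((A ∩ {ω | h ω ≤ |t x ω|}) ∩ {ω | 0 ≤ t x ω}) := (hA.inter hB).inter hC
    have hN : MeasurableSet ((A ∩ {ω | h ω ≤ |t x ω|}) \ {ω | 0 ≤ t x ω}) := (hA.inter hB).diff hC
    have hx1 : ‖x‖ ≤ 1 := hF x (Finset.mem_insert_self _ _)
    let gP := indicatorConstLp p hP (measure_ne_top μ _) x
    let gN := indicatorConstLp p hN (measure_ne_top μ _) x
    have hg : ∀ᵐ ω ∂μ, (gP - gN + g' : Lp X p μ) ω =
        ((A ∩ {ω | h ω ≤ |t x ω|}) ∩ {ω | 0 ≤ t x ω}).indicator (fun _ => x) ω -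
        ((A ∩ {ω | h ω ≤ |t x ω|}) \ {ω | 0 ≤ t x ω}).indicator (fun _ => x) ω + g' ω := by
      filter_upwards [Lp.coeFn_add (gP - gN) g', Lp.coeFn_sub gP gN,
        indicatorConstLp_coeFn (p := p) (μ := μ) (hs := hP) (hμs := measure_ne_top μ _) (c := x),
        indicatorConstLp_coeFn (p := p) (μ := μ) (hs := hN) (hμs := measure_ne_top μ _) (c := x)]
        with ω h1 h2 h3 h4
      rw [h1, Pi.add_apply, h2, Pi.sub_apply, h3, h4]
    refine ⟨gP - gN + g', ?_, ?_, ?_⟩
    · filter_upwards [hg, hg1, hg2] with ω e1 e2 e3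
      rw [e1]
      by_cases hAB : ω ∈ A ∩ {ω | h ω ≤ |t x ω|}
      · have e4 : g' ω = 0 := e3 fun h => h.2 hAB.2
        by_cases h0 : ω ∈ {ω | 0 ≤ t x ω}
        · rw [Set.indicator_of_mem (show ω ∈ (A ∩ {ω | h ω ≤ |t x ω|}) ∩ {ω | 0 ≤ t x ω} from
            ⟨hAB, h0⟩), Set.indicator_of_notMem (fun h => h.2 h0), e4, sub_zero, add_zero]
          exact hx1
        · rw [Set.indicator_of_notMem (fun h => h0 h.2),
            Set.indicator_of_mem (show ω ∈ (A ∩ {ω | h ω ≤ |t x ω|}) \ {ω | 0 ≤ t x ω} from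
            ⟨hAB, h0⟩), e4, zero_sub, add_zero, norm_neg]
          exact hx1
      · rw [Set.indicator_of_notMem (fun h => hAB h.1), Set.indicator_of_notMem (fun h => hAB h.1),
          sub_zero, zero_add]
        exact e2
    · filter_upwards [hg, hg2] with ω e1 e3 hω
      rw [e1, Set.indicator_of_notMem (fun h => hω h.1.1),
        Set.indicator_of_notMem (fun h => hω h.1.1), sub_zero, zero_add]
      exact e3 fun h => hω h.1
    · rw [map_add, map_sub, htr, htr]
      have i1 := integral_inter_add_sdiff hB (hi.integrableOn (s := A))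
      have i2 := integral_inter_add_sdiff hC ((hti x).abs.integrableOn
        (s := A ∩ {ω | h ω ≤ |t x ω|}))
      have i3 : ∫ ω in (A ∩ {ω | h ω ≤ |t x ω|}) ∩ {ω | 0 ≤ t x ω}, |t x ω| ∂μ =
          ∫ ω in (A ∩ {ω | h ω ≤ |t x ω|}) ∩ {ω | 0 ≤ t x ω}, t x ω ∂μ :=
        setIntegral_congr_fun hP fun ω hω => abs_of_nonneg hω.2
      have i4 : ∫ ω in (A ∩ {ω | h ω ≤ |t x ω|}) \ {ω | 0 ≤ t x ω}, |t x ω| ∂μ =
          - ∫ ω in (A ∩ {ω | h ω ≤ |t x ω|}) \ {ω | 0 ≤ t x ω}, t x ω ∂μ := by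
        rw [← integral_neg]
        refine setIntegral_congr_fun hN fun ω hω => ?_
        exact abs_of_neg (not_le.mp hω.2)
      have i5 : ∫ ω in A ∩ {ω | h ω ≤ |t x ω|}, h ω ∂μ ≤
          ∫ ω in A ∩ {ω | h ω ≤ |t x ω|}, |t x ω| ∂μ :=
        setIntegral_mono_on hi.integrableOn (hti x).abs.integrableOn (hA.inter hB)
          fun ω hω => hω.2
      linarith

theorem sDENS : S_DENS := by
  intro Ω _ μ _ X _ _ p _ hp Λ hΛ
  refine ⟨dn hp Λ, fun x => SignedMeasure.measurable_rnDeriv _ _,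
    fun x => SignedMeasure.integrable_rnDeriv _ _, dn_spec hp Λ, ?_⟩
  intro F hF h hm hc h0
  have hi : Integrable h μ := by
    have hs : Integrable (fun ω => ∑ x ∈ F, |dn hp Λ x ω|) μ :=
      integrable_finsetSum _ fun x _ => (SignedMeasure.integrable_rnDeriv _ _).abs
    refine hs.mono' hm.aestronglyMeasurable (Eventually.of_forall fun ω => ?_)
    rw [Real.norm_of_nonneg (h0 ω)]
    obtain ⟨x, hx, hx'⟩ := hc ω
    exact hx'.trans (Finset.single_le_sum (f := fun x => |dn hp Λ x ω|)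
      (fun y _ => abs_nonneg _) hx)
  obtain ⟨g, hg1, _, hg3⟩ := ind Λ (dn hp Λ) (fun x => SignedMeasure.measurable_rnDeriv _ _)
    (fun x => SignedMeasure.integrable_rnDeriv _ _) (dn_spec hp Λ) h hm hi F hF univ
    MeasurableSet.univ (fun ω _ => hc ω)
  rw [setIntegral_univ] at hg3
  have hg4 : ‖g‖ ≤ 1 := by
    have h1 := Lp.norm_le_of_ae_bound zero_le_one hg1
    have h2 : (measureUnivNNReal μ : ℝ) = 1 := by
      unfold measureUnivNNReal
      rw [measure_univ]; rfl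
    rwa [h2, Real.one_rpow, one_mul] at h1
  calc ∫ ω, h ω ∂μ ≤ Λ g := hg3
    _ ≤ ‖Λ g‖ := le_abs_self _
    _ ≤ ‖Λ‖ * ‖g‖ := Λ.le_opNorm g
    _ ≤ 1 * 1 := mul_le_mul hΛ hg4 (norm_nonneg _) zero_le_one
    _ = 1 := one_mul 1

end Pool.Agent.H935.WS
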